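import Pool.Agent.H.MP_f36693_lc.A

set_option autoImplicit false

namespace Pool.Agent.Results.MP_f36693_lc.NoDegree

open Pool.Agent.Lib.helper21.PR Pool.Agent.H.MP_fa5791_lc Pool.Agent.H.MP_fa2eca_lc Filter Set Encodable Denumerable
open Function Nat.Partrec Nat.Partrec.Code Pool.Agent.H.MP_5f0f34_lc Pool.Agent.H.MP_f36693_lc Pool.Agent.Lib.helper21

attribute [local irreducible] Primrec Computable

theorem cv_of {X : ℕ → Bool} {f : ℕ → ℕ} (k : CI X f) : ∃ e, ∀ x b, f x = b ↔ ∃ n, Cv e (pre X n) x b := by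
  obtain ⟨e, l⟩ := jump_one k.ri
  simp only [J_iff, Nat.unpair_pair, Prod.forall] at l
  exact ⟨e, fun x b => ⟨fun a => let ⟨n, c⟩ := (l x _).1 a; ⟨n, n, by simp [pre], by rwa [pre_take _ le_rfl]⟩,
    fun ⟨n, m, c, d⟩ => (l _ _).2 ⟨m, by rwa [pre_take _ (by simpa [pre, Nat.lt_succ_iff] using c)] at d⟩⟩⟩

theorem result : ∃ D : ℕ → Bool, TuringReducible (Fn.orc D) (Fn.orc Om) ∧
    ∀ (L : Lang) (M : Type) (A : Str M) (ν : ℕ → M), Con L A ν → ∀ T : ℕ → Bool, (∀ φ, T φ = true ↔ Th L A φ) →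
      ¬ (TuringReducible (Fn.orc T) (Fn.orc D) ∧ TuringReducible (Fn.orc D) (Fn.orc T)) := by
  have j : CI Om (J O) := (ci_comp (g := fun n => Nat.pair 1 n) (ci_self Om) (by fun_prop)).of_eq fun n => by simp [Om]
  have w := ci_self Om
  obtain ⟨Q, cv, cw, q⟩ : ∃ Q : ℕ × List Bool × ℕ × ℕ → Prop, RI O Q ∧ RI Om Q ∧ ∀ e τ x b, Q (e, τ, x, b) ↔ Cv e τ x b :=
    ⟨_, cv_ri O, cv_ri Om, fun _ _ _ _ => .rfl⟩
  obtain ⟨G, gr, gq⟩ : ∃ G : ℕ × ℕ × ℕ → Prop, RE G ∧ ∀ e x b, G (e, x, b) ↔ b ∈ (ofNat Code e).eval x :=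
    ⟨fun z => z.2.2 ∈ (ofNat Code z.1).eval z.2.1, (r_comp (f := fun z : ℕ × ℕ × ℕ => ((ofNat Code z.1, z.2.1), z.2.2))
      (r_graph eval_part) (by fun_prop)).of_eq (by simp) |>.re |> RE.un, fun _ _ _ => .rfl⟩
  obtain ⟨H, h1, h2⟩ : ∃ H : ℕ × ℕ → Bool, CI Om H ∧ ∀ z, H z = cd ((ofNat Code z.1).eval z.2).Dom :=
    ⟨_, (RI.jump (i_re (r_pw re_dom)).un).trans j, fun _ => rfl⟩
  obtain ⟨S, s1, s2⟩ : ∃ S : ℕ × List Bool → Bool, CI Om S ∧ ∀ z, S z = cd (∃ y : ℕ × List Bool × List Bool × ℕ × ℕ,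
      z.2 <+: y.2.1 ∧ z.2 <+: y.2.2.1 ∧ y.2.2.2.1 ≠ y.2.2.2.2 ∧ Q (z.1, y.2.1, y.1, y.2.2.2.1) ∧
        Q (z.1, y.2.2.1, y.1, y.2.2.2.2)) := ⟨_, (RI.jump (RI.un (by fun_prop))).trans j, fun _ => rfl⟩
  obtain ⟨g, g1, g2⟩ := RI.choice (Y := Om) (R := fun (z : ℕ × List Bool) (τ : List Bool) => z.2 <+: τ ∧
    (S (z.1.unpair.1, z.2) = false ∨ ∃ y : ℕ × ℕ, Q (z.1.unpair.1, τ, y.1, y.2) ∧ (H (z.1.unpair.2, y.1) = false ∨
      ∃ c, G (z.1.unpair.2, y.1, c) ∧ y.2 ≠ (Om c).toNat)) ∧ ∃ n, n < τ.length ∧ z.2.length ≤ n ∧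
        (H (z.1, n) = false ∨ ∃ c, G (z.1, n, c) ∧ c ≠ (τ.getD n false).toNat)) (by fun_prop) fun ⟨s, σ⟩ => by
      simp only [q, gq] at s2 ⊢
      obtain ⟨τ, a, b⟩ : ∃ τ, σ <+: τ ∧ (S (s.unpair.1, σ) = false ∨ ∃ y : ℕ × ℕ, Cv s.unpair.1 τ y.1 y.2 ∧
          (H (s.unpair.2, y.1) = false ∨ ∃ c, c ∈ (ofNat Code s.unpair.2).eval y.1 ∧ y.2 ≠ (Om c).toNat)) := by
        cases a : S (s.unpair.1, σ)
        · exact ⟨σ, by simp⟩
        obtain ⟨⟨x, τ, ρ, u, v⟩, a, b, c, d, e⟩ := cd_true.1 (s2 _ ▸ a)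
        cases f : H (s.unpair.2, x)
        · exact ⟨τ, a, .inr ⟨(x, u), d, .inl f⟩⟩
        obtain ⟨y, f⟩ := Part.dom_iff_mem.1 (cd_true.1 (h2 _ ▸ f))
        by_cases k : u = (Om y).toNat
        exacts [⟨ρ, b, .inr ⟨(x, v), e, .inr ⟨y, f, fun l => c (k.trans l.symm)⟩⟩⟩, ⟨τ, a, .inr ⟨(x, u), d, .inr ⟨y, f, k⟩⟩⟩]
      obtain ⟨u, c⟩ : ∃ u : Bool, H (s, τ.length) = false ∨ ∃ c, c ∈ (ofNat Code s).eval τ.length ∧ c ≠ u.toNat := by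
        cases f : H (s, τ.length)
        · simp
        obtain ⟨y, f⟩ := Part.dom_iff_mem.1 (cd_true.1 (h2 _ ▸ f))
        exact ⟨y = 0, .inr ⟨y, f, by cases y <;> simp⟩⟩
      exact ⟨τ ++ [u], a.trans (by simp), b.imp_right (·.imp fun y d => ⟨d.1.mono (by simp), d.2⟩), τ.length, by simp,
        a.length_le, by simpa using c⟩
  simp only [q, gq] at s2 g2
  obtain ⟨σ, t1, t2⟩ : ∃ σ : ℕ → List Bool, CI Om σ ∧ ∀ s, σ (s + 1) = g (s, σ s) :=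
    ⟨fun s => Nat.rec [] (fun s a => g (s, a)) s, by fun_prop, fun _ => rfl⟩
  have m : ∀ s t, s ≤ t → σ s <+: σ t := fun s t a => by
    induction a with
    | refl => rfl
    | step _ ih => exact ih.trans (t2 _ ▸ (g2 (_, _)).1)
  have l : ∀ s, s ≤ (σ s).length := fun s => s.rec (by simp) fun s a => by
    obtain ⟨n, b, c, -⟩ := (g2 (s, σ s)).2.2
    rw [t2]
    exact (a.trans c).trans_lt b
  obtain ⟨D, d1, d2⟩ : ∃ D, CI Om D ∧ ∀ s, σ s = pre D (σ s).length :=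
    ⟨fun n => (σ (n + 1)).getD n false, by fun_prop, fun s => List.ext_getElem (by simp [pre]) fun i a b => by
      have c := l (i + 1)
      simp only [pre, List.getElem_map, List.getElem_range, List.getD_eq_getElem _ _ c]
      rcases le_total s (i + 1) with d | d
      exacts [(m _ _ d).getElem a, ((m _ _ d).getElem c).symm]⟩
  refine ⟨D, d1.orc, fun L M A ν a T b ⟨c, d⟩ => ?_⟩
  obtain ⟨f, f1, f2⟩ := th_om a
  obtain ⟨p, f3⟩ := exists_code.1 (Partrec.nat_iff.1 f1.partrec)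
  obtain ⟨e, k⟩ := cv_of (.of_red c)
  obtain ⟨s, e1, e2⟩ : ∃ s : ℕ, s.unpair.1 = e ∧ ofNat Code s.unpair.2 = p := ⟨Nat.pair e (encode p), by simp⟩
  rcases (g2 (s, σ s)).2.1 with o | ⟨y, o, q⟩
  swap
  · have := (k _ _).2 ⟨_, d2 _ ▸ t2 s ▸ e1 ▸ o⟩
    simp [h2, e2, f3, ← this, Bool.eq_iff_iff.2 ((b _).trans (f2 _)), ← Bool.not_eq_true] at q
  have : CI O fun x => (T x).toNat := .mk (R := fun x b => ∃ τ, σ s <+: τ ∧ Q (e, τ, x, b)) (by fun_prop) fun x y => by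
      simp only [q]
      have : ∃ τ, σ s <+: τ ∧ Cv e τ x (T x).toNat := let ⟨n, o⟩ := (k x _).1 rfl
        ⟨pre D (n + (σ s).length), by simpa only [← d2] using ML.pre_pre D ((σ s).length.le_add_left n), o.mono (ML.pre_pre D (by simp))⟩
      refine ⟨fun ⟨τ, q, r⟩ => by_contra fun u => ?_, fun q => q ▸ this⟩
      obtain ⟨ρ, v, z⟩ := this
      rw [s2, e1, ← Bool.not_eq_true, cd_true] at o
      exact o ⟨(x, ρ, τ, _, y), v, q, u, z, r⟩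
  obtain ⟨r, u⟩ := exists_code.1 (Partrec.nat_iff.1 (ci_comput ((CI.of_red d).trans (.of_orc this.red))).partrec)
  obtain ⟨n, v, -, z⟩ := (g2 (encode r, σ (encode r))).2.2
  rw [← t2] at v z
  rw [d2 (encode r + 1)] at z
  simp [h2, u, pre, v, ← Bool.not_eq_true] at z

end Pool.Agent.Results.MP_f36693_lc.NoDegree
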